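import Mathlib
import Pool.Agent.Lib.helper24.Dicot
import Pool.Agent.Lib.helper24.MisereTab

set_option autoImplicit false

namespace Pool.Agent.Results.MP_df1cff_co.NoNormal

open Pool.Agent.Lib.helper24.Dicot Pool.Agent.Lib.helper24.Dicot.PG
open Pool.Agent.Lib.helper24.MisereTab

/-- Component types: `*`, `*2`, `a = {0, * | 0}`, `b = {0 | 0, *}` and `X = {0, a | 0, *2}`. -/
def M : Bool → List (V × V)
  | true => [((1, 0, 0, 0, 0), (0, 0, 0, 0, 0)), ((0, 1, 0, 0, 0), (0, 0, 0, 0, 0)),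
      ((0, 1, 0, 0, 0), (1, 0, 0, 0, 0)), ((0, 0, 1, 0, 0), (0, 0, 0, 0, 0)),
      ((0, 0, 1, 0, 0), (1, 0, 0, 0, 0)), ((0, 0, 0, 1, 0), (0, 0, 0, 0, 0)),
      ((0, 0, 0, 0, 1), (0, 0, 0, 0, 0)), ((0, 0, 0, 0, 1), (0, 0, 1, 0, 0))]
  | false => [((1, 0, 0, 0, 0), (0, 0, 0, 0, 0)), ((0, 1, 0, 0, 0), (0, 0, 0, 0, 0)),
      ((0, 1, 0, 0, 0), (1, 0, 0, 0, 0)), ((0, 0, 1, 0, 0), (0, 0, 0, 0, 0)),
      ((0, 0, 0, 1, 0), (0, 0, 0, 0, 0)), ((0, 0, 0, 1, 0), (1, 0, 0, 0, 0)),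
      ((0, 0, 0, 0, 1), (0, 0, 0, 0, 0)), ((0, 0, 0, 0, 1), (0, 1, 0, 0, 0))]

def op (s : Bool) : V → V → Prop := opt (M s)

theorem hM : ∀ s, ∀ m ∈ M s, sz m.1 = 1 ∧ w m.2 < w m.1 := by decide

theorem hw (s : Bool) (c c' : V) (h : op s c c') : w c' < w c := by
  obtain ⟨m, hm, h, rfl⟩ := h
  have := (hM s m hm).2
  simp only [Prod.le_def, Prod.fst_add, Prod.snd_add, Prod.fst_sub, Prod.snd_sub, w] at *
  omega

theorem hs (s : Bool) (c d z : V) :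
    op s (c + d) z ↔ (∃ c', op s c c' ∧ z = c' + d) ∨ ∃ d', op s d d' ∧ z = c + d' :=
  opt_add _ (hM s) c d z

theorem opL (j m k l n : ℕ) (z : V) : op true (j, m, k, l, n) z ↔
    (1 ≤ j ∧ z = (j - 1, m, k, l, n)) ∨ (1 ≤ m ∧ z = (j, m - 1, k, l, n)) ∨
    (1 ≤ m ∧ z = (j + 1, m - 1, k, l, n)) ∨ (1 ≤ k ∧ z = (j, m, k - 1, l, n)) ∨
    (1 ≤ k ∧ z = (j + 1, m, k - 1, l, n)) ∨ (1 ≤ l ∧ z = (j, m, k, l - 1, n)) ∨
    (1 ≤ n ∧ z = (j, m, k, l, n - 1)) ∨ (1 ≤ n ∧ z = (j, m, k + 1, l, n - 1)) := by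
  simp [op, opt, M]

theorem opR (j m k l n : ℕ) (z : V) : op false (j, m, k, l, n) z ↔
    (1 ≤ j ∧ z = (j - 1, m, k, l, n)) ∨ (1 ≤ m ∧ z = (j, m - 1, k, l, n)) ∨
    (1 ≤ m ∧ z = (j + 1, m - 1, k, l, n)) ∨ (1 ≤ k ∧ z = (j, m, k - 1, l, n)) ∨
    (1 ≤ l ∧ z = (j, m, k, l - 1, n)) ∨ (1 ≤ l ∧ z = (j + 1, m, k, l - 1, n)) ∨
    (1 ≤ n ∧ z = (j, m, k, l, n - 1)) ∨ (1 ≤ n ∧ z = (j, m + 1, k, l, n - 1)) := by
  simp [op, opt, M]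

theorem no_op (s : Bool) (c : V) : (∀ c', ¬ op s c c') ↔ c = 0 := by
  obtain ⟨j, k, n, d, e⟩ := c
  cases s <;> simp [op, opt, M, not_or, forall_and]

/-- Left wins moving first; `q` is the parity bit. -/
def oL (q m k l n : ℕ) : Prop :=
  l + 1 ≤ k + n ∨ (l = k + n ∧ (q % 2 = 1 ∨ (n ≤ 1 ∧ (m + n) % 2 = 1))) ∨
    (l = k + 1 ∧ n = 0 ∧ m % 2 = 0 ∧ q % 2 = 0)

/-- Right wins moving first; `q` is the parity bit. -/
def oR (q m k l n : ℕ) : Prop :=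
  k + n + 1 ≤ l ∨ (l = k + n ∧ (q % 2 = 1 ∨ 1 ≤ n ∨ m % 2 = 1)) ∨
    (l + 1 = k + n ∧ q % 2 = 0 ∧ (1 ≤ n ∨ m % 2 = 0))

def par (b : Bool) (j m n : ℕ) : ℕ := if b = true ∧ m = 0 ∧ n ≤ 1 then j + 1 else j

def o (b : Bool) (c : V) : Bool → Prop
  | true => oL (par b c.1 c.2.1 c.2.2.2.2) c.2.1 c.2.2.1 c.2.2.2.1 c.2.2.2.2
  | false => oR (par b c.1 c.2.1 c.2.2.2.2) c.2.1 c.2.2.1 c.2.2.2.1 c.2.2.2.2

theorem ho (b : Bool) (c : V) (s : Bool) : o b c s ↔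
    ((∀ c', ¬ op s c c') ∧ b = true) ∨ ∃ c', op s c c' ∧ ¬ o b c' (!s) := by
  rw [no_op]
  obtain ⟨j, m, k, l, n⟩ := c
  obtain rfl | rfl | rfl | ⟨n, rfl⟩ : n = 0 ∨ n = 1 ∨ n = 2 ∨ ∃ n', n = n' + 3 := by
    rcases n with _ | _ | _ | n <;> simp
  all_goals
    obtain rfl | rfl | ⟨m, rfl⟩ : m = 0 ∨ m = 1 ∨ ∃ m', m = m' + 2 := by
      rcases m with _ | _ | m <;> simp
    all_goals
      cases s <;> cases b <;>
      · simp only [opL, opR, or_and_right, exists_or, and_assoc, exists_and_left, exists_eq_left]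
        simp [o, par, oL, oR, Prod.ext_iff]
        omega

theorem win_iff (b : Bool) (G : PG) (c : V) (s : Bool) (hG : Rep op G c) :
    Win b G s ↔ o b c s :=
  rep_out b (fun _ => True) (fun _ _ _ _ _ => trivial) (o b) (fun c s _ => ho b c s) G c s
    trivial hG

theorem rep_zero : Rep op zero 0 := fun s =>
  ⟨fun i => i.elim0, fun c' h => absurd h ((no_op s 0).2 rfl c')⟩

theorem rep_star : Rep op star (1, 0, 0, 0, 0) := fun s => by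
  have : ∀ z, op s (1, 0, 0, 0, 0) z ↔ z = 0 := fun z => by
    cases s
    · rw [opR]; simp [Prod.ext_iff]
    · rw [opL]; simp [Prod.ext_iff]
  exact ⟨fun _ => ⟨0, (this 0).2 rfl, rep_zero⟩, fun c' h => ⟨⟨0, Nat.one_pos⟩,
    (this c').1 h ▸ rep_zero⟩⟩

/-- A closed set of dicots containing `*` that has an evil kernel but no evil kernel making it
evilly normal. -/
theorem result : ∃ A : Set PG, (∀ G ∈ A, Dicotic G) ∧ Closed A ∧ star ∈ A ∧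
    (∃ K, EvilKernel A K) ∧ ∀ K, ¬ EvillyNormal A K := by
  have ex := rep_exists (opt := op) w hw fun s c => opt_fin (M s) c
  have dic := rep_dicotic (opt := op) fun c => by rw [no_op, no_op]
  refine ⟨{X | ∃ c, Rep op X c}, ?_, ⟨?_, ?_⟩, ⟨_, rep_star⟩,
    ⟨{X | (∃ c, Rep op X c) ∧ out false X = out true X}, fun X h => h.1, fun X h => h.2, ?_⟩, ?_⟩
  · rintro X ⟨c, r⟩
    exact dic X c r
  · rintro X ⟨c, r⟩ Y ⟨d, r'⟩
    exact ⟨c + d, rep_add hs _ _ _ _ r r'⟩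
  · rintro ⟨n, f⟩ ⟨c, r⟩ s Y ⟨i, rfl⟩
    obtain ⟨z, -, h2⟩ := (r s).1 i
    exact ⟨z, h2⟩
  · rintro X ⟨⟨⟨j, m, k, l, n⟩, r⟩, h1⟩
    have h2 : out false X ≠ out true X := fun h => h1 ⟨⟨_, r⟩, h⟩
    have r' := rep_add hs _ _ _ _ r rep_star
    simp only [out, win_iff _ X _ _ r, win_iff _ _ _ _ r', o, par, Prod.mk_add_mk,
      add_zero] at h2 ⊢
    by_cases h : m = 0 ∧ n ≤ 1
    · simp only [h, oL, oR, and_self, if_true, Bool.false_eq_true, false_and, if_false,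
        show (j + 1 + 1) % 2 = j % 2 by omega]
    · simp [h] at h2
  · rintro K ⟨-, -, ⟨-, k1, k2⟩, k3⟩
    obtain ⟨X, hX⟩ := ex (0, 0, 0, 0, 1)
    obtain ⟨B, hB⟩ := ex (0, 0, 0, 1, 0)
    have nX : X ∉ K := fun h => by
      have := k1 X h
      simp [out, win_iff _ X _ _ hX, o, par, oL, oR] at this
    have nB : B ∉ K := fun h => by
      have := k1 B h
      simp [out, win_iff _ B _ _ hB, o, par, oL, oR] at this
    have hXX := rep_add hs _ _ _ _ hX hX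
    have hY := rep_add hs _ _ _ _ hXX hB
    have nY := (k3 _ ⟨_, hXX⟩ _ ⟨_, hB⟩).2 ⟨(k3 _ ⟨_, hX⟩ _ ⟨_, hX⟩).2 ⟨nX, nX⟩, nB⟩
    have := (k2 _ ⟨⟨_, hY⟩, nY⟩).1
    simp [out, win_iff _ _ _ _ hY, win_iff _ _ _ _ (rep_add hs _ _ _ _ hY rep_star), o, par, oL,
      oR] at this

end Pool.Agent.Results.MP_df1cff_co.NoNormal
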